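import Mathlib

set_option autoImplicit false

namespace Pool.Agent.R272.Conf

/-- The Euclidean Laplacian of `u : ℝ² → ℝ` at `(x, y)`: the sum of the two pure second partial
derivatives. -/
noncomputable def lap (u : ℝ × ℝ → ℝ) (p : ℝ × ℝ) : ℝ :=
  deriv (fun s => deriv (fun t => u (t, p.2)) s) p.1 +
    deriv (fun s => deriv (fun t => u (p.1, t)) s) p.2

end Pool.Agent.R272.Conf
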