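import Pool.Agent.R272.Conf.Defs

set_option autoImplicit false

open Real

namespace Pool.Agent.R272.Conf

/-- `τ` -/
noncomputable def tau (a : ℝ) (z : ℝ × ℝ) : ℝ := (z.1 - a) ^ 2 + z.2 ^ 2 + (1 / 10) ^ 40

/-- `q = t ^ (1/4)` -/
noncomputable def qq (t : ℝ) : ℝ := exp (log t / 4)

noncomputable def G (t : ℝ) : ℝ := 3 / 8 * log t + log (qq t + 1 / 10 ^ 6)

noncomputable def G1 (t : ℝ) : ℝ := 3 / (8 * t) + qq t / (4 * t) / (qq t + 1 / 10 ^ 6)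

noncomputable def G2 (t : ℝ) : ℝ :=
  - (3 / (8 * t ^ 2)) - qq t * (4 * qq t + 3 * (1 / 10 ^ 6)) / (16 * t ^ 2 * (qq t + 1 / 10 ^ 6) ^ 2)

noncomputable def uu (z : ℝ × ℝ) : ℝ := log (7 / 10 ^ 4) - G (tau 1 z) - G (tau (-1) z)

theorem qq_pos (t : ℝ) : 0 < qq t := exp_pos _

theorem qq_pow {t : ℝ} (ht : 0 < t) : qq t ^ 4 = t := by
  rw [qq, ← exp_nat_mul]
  have : ((4 : ℕ) : ℝ) * (log t / 4) = log t := by push_cast; ring
  rw [this, exp_log ht]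

theorem hasDerivAt_qq {t : ℝ} (ht : 0 < t) : HasDerivAt qq (qq t / (4 * t)) t := by
  have h := ((hasDerivAt_log ht.ne').div_const 4).exp
  refine HasDerivAt.congr_deriv (f := qq) h ?_
  rw [qq]
  field_simp

theorem hasDerivAt_G {t : ℝ} (ht : 0 < t) : HasDerivAt G (G1 t) t := by
  have h1 := (hasDerivAt_log ht.ne').const_mul (3 / 8 : ℝ)
  have hq := qq_pos t
  have h2 := ((hasDerivAt_qq ht).add_const (1 / 10 ^ 6 : ℝ)).log (by positivity)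
  have h3 := h1.add h2
  refine HasDerivAt.congr_deriv (f := G) h3 ?_
  rw [G1]
  field_simp

theorem hasDerivAt_G1 {t : ℝ} (ht : 0 < t) : HasDerivAt G1 (G2 t) t := by
  have hq := qq_pos t
  have ht' := ht.ne'
  have hid : HasDerivAt (fun s : ℝ => s) 1 t := hasDerivAt_id t
  have h1 : HasDerivAt (fun s : ℝ => 3 / (8 * s)) (-(3 / (8 * t ^ 2))) t := by
    have := (hasDerivAt_const t (3 : ℝ)).div (hid.const_mul 8) (by positivity)
    refine HasDerivAt.congr_deriv (f := fun s : ℝ => 3 / (8 * s)) this ?_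
    field_simp
    ring
  have h2 : HasDerivAt (fun s : ℝ => qq s / (4 * s)) (-(3 * qq t) / (16 * t ^ 2)) t := by
    have := (hasDerivAt_qq ht).div (hid.const_mul 4) (by positivity)
    refine HasDerivAt.congr_deriv (f := fun s : ℝ => qq s / (4 * s)) this ?_
    field_simp
    ring
  have h3 := h2.div ((hasDerivAt_qq ht).add_const (1 / 10 ^ 6 : ℝ)) (by positivity)
  have h4 := h1.add h3
  refine HasDerivAt.congr_deriv (f := G1) h4 ?_
  rw [G2]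
  have h5 : qq t + 1 / 10 ^ 6 ≠ 0 := by positivity
  field_simp
  ring

theorem tau_pos (a : ℝ) (z : ℝ × ℝ) : 0 < tau a z := by
  rw [tau]; positivity

/-- one-variable chain rule, first derivative -/
theorem hasDerivAt_comp1 (a c s : ℝ) (hc : 0 < c) :
    HasDerivAt (fun s => G ((s - a) ^ 2 + c)) (2 * (s - a) * G1 ((s - a) ^ 2 + c)) s := by
  have h1 : HasDerivAt (fun s : ℝ => (s - a) ^ 2 + c) (2 * (s - a)) s := by
    have := (((hasDerivAt_id s).sub_const a).pow 2).add_const c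
    refine HasDerivAt.congr_deriv (f := fun s : ℝ => (s - a) ^ 2 + c) this ?_
    simp
  have h2 := (hasDerivAt_G (t := (s - a) ^ 2 + c) (by positivity)).comp s h1
  refine HasDerivAt.congr_deriv (f := fun s => G ((s - a) ^ 2 + c)) h2 ?_
  ring

theorem hasDerivAt_comp2 (a c s : ℝ) (hc : 0 < c) :
    HasDerivAt (fun s => 2 * (s - a) * G1 ((s - a) ^ 2 + c))
      (2 * G1 ((s - a) ^ 2 + c) + 4 * (s - a) ^ 2 * G2 ((s - a) ^ 2 + c)) s := by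
  have h1 : HasDerivAt (fun s : ℝ => (s - a) ^ 2 + c) (2 * (s - a)) s := by
    have := (((hasDerivAt_id s).sub_const a).pow 2).add_const c
    refine HasDerivAt.congr_deriv (f := fun s : ℝ => (s - a) ^ 2 + c) this ?_
    simp
  have h2 := (hasDerivAt_G1 (t := (s - a) ^ 2 + c) (by positivity)).comp s h1
  have h3 : HasDerivAt (fun s : ℝ => 2 * (s - a)) 2 s := by
    have := ((hasDerivAt_id s).sub_const a).const_mul 2
    refine HasDerivAt.congr_deriv (f := fun s : ℝ => 2 * (s - a)) this ?_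
    simp
  have h4 := h3.mul h2
  refine HasDerivAt.congr_deriv (f := fun s => 2 * (s - a) * G1 ((s - a) ^ 2 + c)) h4 ?_
  simp only [Function.comp]
  ring

theorem lap_uu (z : ℝ × ℝ) : lap uu z =
    - (4 * G1 (tau 1 z) + 4 * ((z.1 - 1) ^ 2 + z.2 ^ 2) * G2 (tau 1 z)) -
      (4 * G1 (tau (-1) z) + 4 * ((z.1 - (-1)) ^ 2 + z.2 ^ 2) * G2 (tau (-1) z)) := by
  obtain ⟨x, y⟩ := z
  have hx : (fun t : ℝ => uu (t, y)) = fun t : ℝ => log (7 / 10 ^ 4) -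
      G ((t - 1) ^ 2 + (y ^ 2 + (1 / 10) ^ 40)) - G ((t - (-1)) ^ 2 + (y ^ 2 + (1 / 10) ^ 40)) := by
    funext t
    simp only [uu, tau]
    rw [add_assoc, add_assoc]
  have hy : (fun t : ℝ => uu (x, t)) = fun t : ℝ => log (7 / 10 ^ 4) -
      G ((t - 0) ^ 2 + ((x - 1) ^ 2 + (1 / 10) ^ 40)) -
      G ((t - 0) ^ 2 + ((x - (-1)) ^ 2 + (1 / 10) ^ 40)) := by
    funext t
    simp only [uu, tau]
    have r1 : (x - 1) ^ 2 + t ^ 2 + (1 / 10) ^ 40 =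
        (t - 0) ^ 2 + ((x - 1) ^ 2 + (1 / 10) ^ 40) := by ring
    have r2 : (x - (-1)) ^ 2 + t ^ 2 + (1 / 10) ^ 40 =
        (t - 0) ^ 2 + ((x - (-1)) ^ 2 + (1 / 10) ^ 40) := by ring
    rw [r1, r2]
  have c1 : (0 : ℝ) < y ^ 2 + (1 / 10) ^ 40 := by positivity
  have c2 : (0 : ℝ) < (x - 1) ^ 2 + (1 / 10) ^ 40 := by positivity
  have c3 : (0 : ℝ) < (x - (-1)) ^ 2 + (1 / 10) ^ 40 := by positivity
  have d1 : (fun s : ℝ => deriv (fun t : ℝ => uu (t, y)) s) = fun s : ℝ =>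
      - (2 * (s - 1) * G1 ((s - 1) ^ 2 + (y ^ 2 + (1 / 10) ^ 40))) -
        (2 * (s - (-1)) * G1 ((s - (-1)) ^ 2 + (y ^ 2 + (1 / 10) ^ 40))) := by
    funext s
    rw [hx]
    have := (((hasDerivAt_const s (log (7 / 10 ^ 4))).sub (hasDerivAt_comp1 1 _ s c1)).sub
      (hasDerivAt_comp1 (-1) _ s c1)).deriv
    rw [← zero_sub (2 * (s - 1) * G1 ((s - 1) ^ 2 + (y ^ 2 + (1 / 10) ^ 40)))]
    exact this
  have d2 : (fun s : ℝ => deriv (fun t : ℝ => uu (x, t)) s) = fun s : ℝ =>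
      - (2 * (s - 0) * G1 ((s - 0) ^ 2 + ((x - 1) ^ 2 + (1 / 10) ^ 40))) -
        (2 * (s - 0) * G1 ((s - 0) ^ 2 + ((x - (-1)) ^ 2 + (1 / 10) ^ 40))) := by
    funext s
    rw [hy]
    have := (((hasDerivAt_const s (log (7 / 10 ^ 4))).sub (hasDerivAt_comp1 0 _ s c2)).sub
      (hasDerivAt_comp1 0 _ s c3)).deriv
    rw [← zero_sub (2 * (s - 0) * G1 ((s - 0) ^ 2 + ((x - 1) ^ 2 + (1 / 10) ^ 40)))]
    exact this
  have e1 := ((hasDerivAt_comp2 1 _ x c1).neg.sub (hasDerivAt_comp2 (-1) _ x c1)).deriv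
  have e2 := ((hasDerivAt_comp2 0 _ y c2).neg.sub (hasDerivAt_comp2 0 _ y c3)).deriv
  rw [lap, d1, d2]
  simp only
  have f1 : deriv (fun s : ℝ => - (2 * (s - 1) * G1 ((s - 1) ^ 2 + (y ^ 2 + (1 / 10) ^ 40))) -
        (2 * (s - (-1)) * G1 ((s - (-1)) ^ 2 + (y ^ 2 + (1 / 10) ^ 40)))) x = _ := e1
  have f2 : deriv (fun s : ℝ => - (2 * (s - 0) * G1 ((s - 0) ^ 2 + ((x - 1) ^ 2 + (1 / 10) ^ 40))) -
        (2 * (s - 0) * G1 ((s - 0) ^ 2 + ((x - (-1)) ^ 2 + (1 / 10) ^ 40)))) y = _ := e2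
  rw [f1, f2]
  have t1 : (x - 1) ^ 2 + (y ^ 2 + (1 / 10) ^ 40) = tau 1 (x, y) := by rw [tau]; ring
  have t2 : (x - (-1)) ^ 2 + (y ^ 2 + (1 / 10) ^ 40) = tau (-1) (x, y) := by rw [tau]; ring
  have t3 : (y - 0) ^ 2 + ((x - 1) ^ 2 + (1 / 10) ^ 40) = tau 1 (x, y) := by rw [tau]; ring
  have t4 : (y - 0) ^ 2 + ((x - (-1)) ^ 2 + (1 / 10) ^ 40) = tau (-1) (x, y) := by rw [tau]; ring
  rw [t1, t2, t3, t4]
  ring

/-- the lower bound for the Laplacian of one term -/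
theorem term_lower (a : ℝ) (z : ℝ × ℝ) :
    (1 / 10 ^ 6) / (4 * (qq (tau a z) ^ 3 * (qq (tau a z) + 1 / 10 ^ 6) ^ 2)) ≤
      4 * G1 (tau a z) + 4 * ((z.1 - a) ^ 2 + z.2 ^ 2) * G2 (tau a z) := by
  have ht := tau_pos a z
  have hr : (z.1 - a) ^ 2 + z.2 ^ 2 = tau a z - (1 / 10) ^ 40 := by rw [tau]; ring
  rw [hr]
  set t := tau a z with htdef
  have hq := qq_pos t
  have hq4 := qq_pow ht
  have h2 : G2 t ≤ 0 := by
    rw [G2]
    have : 0 ≤ qq t * (4 * qq t + 3 * (1 / 10 ^ 6)) / (16 * t ^ 2 * (qq t + 1 / 10 ^ 6) ^ 2) := by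
      positivity
    have : 0 ≤ 3 / (8 * t ^ 2) := by positivity
    linarith
  have h3 : 4 * G1 t + 4 * t * G2 t =
      (1 / 10 ^ 6) / (4 * (qq t ^ 3 * (qq t + 1 / 10 ^ 6) ^ 2)) := by
    rw [G1, G2]
    have h5 : qq t + 1 / 10 ^ 6 ≠ 0 := by positivity
    generalize qq t = q at *
    rw [← hq4]
    have hq' := hq.ne'
    field_simp
    ring
  have h4 : 0 ≤ - (4 * (1 / 10 : ℝ) ^ 40 * G2 t) := by
    have : (0 : ℝ) ≤ 4 * (1 / 10 : ℝ) ^ 40 := by positivity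
    nlinarith
  nlinarith

theorem key_ineq {q1 q2 : ℝ} (h1 : 0 < q1) (h2 : 0 < q2) (h : 2 ≤ q1 ^ 2 + q2 ^ 2) :
    2 ≤ q1 ^ 5 + q2 ^ 5 := by
  have k : ∀ q : ℝ, 0 < q → 5 * q ^ 2 - 3 ≤ 2 * q ^ 5 := by
    intro q hq
    have : 2 * q ^ 5 - 5 * q ^ 2 + 3 = (q - 1) ^ 2 * (2 * q ^ 3 + 4 * q ^ 2 + 6 * q + 3) := by ring
    have h0 : 0 ≤ (q - 1) ^ 2 * (2 * q ^ 3 + 4 * q ^ 2 + 6 * q + 3) := by positivity
    linarith
  have a := k q1 h1
  have b := k q2 h2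
  nlinarith

theorem exp_neg_G {t : ℝ} (ht : 0 < t) : exp (- (2 * G t)) = 1 / (qq t ^ 3 * (qq t + 1 / 10 ^ 6) ^ 2) := by
  have hq := qq_pos t
  have hlog : log t = 4 * log (qq t) := by
    rw [qq, log_exp]; ring
  have h5 : 0 < qq t + 1 / 10 ^ 6 := by positivity
  rw [G, hlog]
  have : -(2 * (3 / 8 * (4 * log (qq t)) + log (qq t + 1 / 10 ^ 6))) =
      - (log (qq t ^ 3 * (qq t + 1 / 10 ^ 6) ^ 2)) := by
    rw [log_mul (by positivity) (by positivity), log_pow, log_pow]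
    push_cast
    ring
  rw [this, exp_neg, exp_log (by positivity)]
  exact (one_div _).symm

theorem exp_two_uu (z : ℝ × ℝ) : exp (2 * uu z) = (49 / 10 ^ 8) *
    (1 / (qq (tau 1 z) ^ 3 * (qq (tau 1 z) + 1 / 10 ^ 6) ^ 2)) *
    (1 / (qq (tau (-1) z) ^ 3 * (qq (tau (-1) z) + 1 / 10 ^ 6) ^ 2)) := by
  rw [← exp_neg_G (tau_pos 1 z), ← exp_neg_G (tau_pos (-1) z)]
  have : (49 / 10 ^ 8 : ℝ) = exp (2 * log (7 / 10 ^ 4)) := by
    rw [show (2 : ℝ) * log (7 / 10 ^ 4) = log ((7 / 10 ^ 4) ^ 2) by rw [log_pow]; push_cast; ring,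
      exp_log (by positivity)]
    norm_num
  rw [this, ← exp_add, ← exp_add, uu]
  congr 1
  ring

theorem qq_sq_ge (a : ℝ) (z : ℝ × ℝ) : |z.1 - a| ≤ qq (tau a z) ^ 2 := by
  have h4 := qq_pow (tau_pos a z)
  apply abs_le_of_sq_le_sq _ (by positivity)
  have : (qq (tau a z) ^ 2) ^ 2 = tau a z := by
    calc (qq (tau a z) ^ 2) ^ 2 = qq (tau a z) ^ 4 := by ring
      _ = _ := h4
  rw [this, tau]
  have h1 : 0 ≤ z.2 ^ 2 := by positivity
  have h2 : (0 : ℝ) ≤ (1 / 10) ^ 40 := by positivity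
  linarith

theorem super (z : ℝ × ℝ) : lap uu z + exp (2 * uu z) ≤ 0 := by
  rw [lap_uu, exp_two_uu]
  have h1 := term_lower 1 z
  have h2 := term_lower (-1) z
  have k1 := qq_sq_ge 1 z
  have k2 := qq_sq_ge (-1) z
  set q1 := qq (tau 1 z) with hq1
  set q2 := qq (tau (-1) z) with hq2
  have p1 : 0 < q1 := qq_pos _
  have p2 : 0 < q2 := qq_pos _
  have hsum : 2 ≤ q1 ^ 2 + q2 ^ 2 := by
    have e1 := neg_abs_le (z.1 - 1)
    have e2 := le_abs_self (z.1 - (-1))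
    linarith
  have h5 := key_ineq p1 p2 hsum
  set B1 := q1 ^ 3 * (q1 + 1 / 10 ^ 6) ^ 2 with hB1
  set B2 := q2 ^ 3 * (q2 + 1 / 10 ^ 6) ^ 2 with hB2
  have b1 : q1 ^ 5 ≤ B1 := by
    rw [hB1]
    have : q1 ^ 5 = q1 ^ 3 * q1 ^ 2 := by ring
    rw [this]
    gcongr
    linarith [show (0 : ℝ) < 1 / 10 ^ 6 by positivity]
  have b2 : q2 ^ 5 ≤ B2 := by
    rw [hB2]
    have : q2 ^ 5 = q2 ^ 3 * q2 ^ 2 := by ring
    rw [this]
    gcongr
    linarith [show (0 : ℝ) < 1 / 10 ^ 6 by positivity]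
  have B1p : 0 < B1 := lt_of_lt_of_le (by positivity) b1
  have B2p : 0 < B2 := lt_of_lt_of_le (by positivity) b2
  have h6 : 49 / 10 ^ 8 * (1 / B1) * (1 / B2) ≤
      1 / 10 ^ 6 / (4 * B1) + 1 / 10 ^ 6 / (4 * B2) := by
    rw [← sub_nonneg]
    have : 1 / 10 ^ 6 / (4 * B1) + 1 / 10 ^ 6 / (4 * B2) - 49 / 10 ^ 8 * (1 / B1) * (1 / B2) =
        (1 / (4 * 10 ^ 6)) * (B1 + B2 - 196 / 100) / (B1 * B2) := by
      field_simp
      ring
    rw [this]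
    apply div_nonneg _ (by positivity)
    apply mul_nonneg (by positivity)
    linarith
  linarith

end Pool.Agent.R272.Conf
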