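import Pool.Agent.R272.Conf.Fn

set_option autoImplicit false

open Real MeasureTheory

namespace Pool.Agent.R272.Conf

theorem contDiff_tau (n : WithTop ℕ∞) (a : ℝ) : ContDiff ℝ n (tau a) := by
  unfold tau
  fun_prop

theorem contDiff_uu (n : WithTop ℕ∞) : ContDiff ℝ n uu := by
  have key : ∀ a : ℝ, ContDiff ℝ n (fun z => G (tau a z)) := by
    intro a
    have h1 : ContDiff ℝ n (fun z => log (tau a z)) :=
      (contDiff_tau n a).log (fun z => (tau_pos a z).ne')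
    have h2 : ContDiff ℝ n (fun z => qq (tau a z) + 1 / 10 ^ 6) := by
      unfold qq
      exact ((h1.div_const 4).exp).add contDiff_const
    have h3 : ContDiff ℝ n (fun z => log (qq (tau a z) + 1 / 10 ^ 6)) :=
      h2.log (fun z => by
        have := qq_pos (tau a z)
        positivity)
    exact (contDiff_const.mul h1).add h3
  exact (contDiff_const.sub (key 1)).sub (key (-1))

theorem qq_ge (a : ℝ) (z : ℝ × ℝ) : (1 / 10) ^ 10 ≤ qq (tau a z) := by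
  have h4 := qq_pow (tau_pos a z)
  have hq := qq_pos (tau a z)
  by_contra hcon
  push Not at hcon
  have : qq (tau a z) ^ 4 < ((1 / 10) ^ 10) ^ 4 := by gcongr
  rw [h4] at this
  have h5 : (((1 : ℝ) / 10) ^ 10) ^ 4 = (1 / 10) ^ 40 := by rw [← pow_mul]
  rw [h5, tau] at this
  have h1 : 0 ≤ z.2 ^ 2 := by positivity
  have h2 : 0 ≤ (z.1 - a) ^ 2 := by positivity
  linarith

theorem B_ge (a : ℝ) (z : ℝ × ℝ) :
    tau a z * (1 / 10) ^ 10 ≤ qq (tau a z) ^ 3 * (qq (tau a z) + 1 / 10 ^ 6) ^ 2 := by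
  have h4 := qq_pow (tau_pos a z)
  have hq := qq_pos (tau a z)
  have hge := qq_ge a z
  calc tau a z * (1 / 10) ^ 10 = qq (tau a z) ^ 4 * (1 / 10) ^ 10 := by rw [h4]
    _ ≤ qq (tau a z) ^ 4 * qq (tau a z) := by gcongr
    _ = qq (tau a z) ^ 3 * (qq (tau a z)) ^ 2 := by ring
    _ ≤ qq (tau a z) ^ 3 * (qq (tau a z) + 1 / 10 ^ 6) ^ 2 := by
      gcongr
      linarith [show (0 : ℝ) < 1 / 10 ^ 6 by positivity]

theorem tau_one_ge (z : ℝ × ℝ) : ((1 / 10) ^ 40 / 3) * (1 + z.1 ^ 2) ≤ tau 1 z := by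
  rw [tau]
  have h1 : 0 ≤ z.2 ^ 2 := by positivity
  have h3 : 1 + z.1 ^ 2 ≤ 3 + 2 * (z.1 - 1) ^ 2 := by nlinarith [sq_nonneg (z.1 - 2)]
  have h4 : ((1 : ℝ) / 10) ^ 40 ≤ 1 := pow_le_one₀ (by norm_num) (by norm_num)
  have h5 : (0 : ℝ) < (1 / 10) ^ 40 := by positivity
  have h6 : 0 ≤ (z.1 - 1) ^ 2 := by positivity
  set e := ((1 : ℝ) / 10) ^ 40
  have : e / 3 * (1 + z.1 ^ 2) ≤ e / 3 * (3 + 2 * (z.1 - 1) ^ 2) := by gcongr
  nlinarith [mul_le_mul_of_nonneg_right h4 h6]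

theorem tau_neg_one_ge (z : ℝ × ℝ) : ((1 / 10) ^ 40) * (1 + z.2 ^ 2) ≤ tau (-1) z := by
  rw [tau]
  have h1 : 0 ≤ z.2 ^ 2 := by positivity
  have h4 : ((1 : ℝ) / 10) ^ 40 ≤ 1 := pow_le_one₀ (by norm_num) (by norm_num)
  have h6 : 0 ≤ (z.1 - (-1)) ^ 2 := by positivity
  set e := ((1 : ℝ) / 10) ^ 40
  nlinarith [mul_le_mul_of_nonneg_right h4 h1]

theorem integrable_exp : Integrable (fun z : ℝ × ℝ => exp (2 * uu z)) := by
  set C : ℝ := (49 / 10 ^ 8) * (1 / (((1 / 10) ^ 40 / 3) * (1 / 10) ^ 10)) *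
    (1 / ((1 / 10) ^ 40 * (1 / 10) ^ 10)) with hC
  have hg : Integrable (fun z : ℝ × ℝ => C * ((1 + z.1 ^ 2)⁻¹ * (1 + z.2 ^ 2)⁻¹)) := by
    have := (integrable_inv_one_add_sq.mul_prod integrable_inv_one_add_sq)
    exact this.const_mul C
  refine hg.mono' ?_ ?_
  · have : Continuous (fun z : ℝ × ℝ => exp (2 * uu z)) := by
      have := (contDiff_uu 0).continuous
      fun_prop
    exact this.aestronglyMeasurable
  · refine Filter.Eventually.of_forall (fun z => ?_)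
    rw [Real.norm_eq_abs, abs_of_pos (exp_pos _), exp_two_uu]
    have h1 := B_ge 1 z
    have h2 := B_ge (-1) z
    have k1 := tau_one_ge z
    have k2 := tau_neg_one_ge z
    have hx : 0 < 1 + z.1 ^ 2 := by positivity
    have hy : 0 < 1 + z.2 ^ 2 := by positivity
    have a1 : ((1 / 10) ^ 40 / 3) * (1 + z.1 ^ 2) * (1 / 10) ^ 10 ≤
        qq (tau 1 z) ^ 3 * (qq (tau 1 z) + 1 / 10 ^ 6) ^ 2 :=
      le_trans (by gcongr) h1
    have a2 : ((1 / 10) ^ 40) * (1 + z.2 ^ 2) * (1 / 10) ^ 10 ≤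
        qq (tau (-1) z) ^ 3 * (qq (tau (-1) z) + 1 / 10 ^ 6) ^ 2 :=
      le_trans (by gcongr) h2
    have b1 := one_div_le_one_div_of_le (by positivity) a1
    have b2 := one_div_le_one_div_of_le (by positivity) a2
    calc _ ≤ (49 / 10 ^ 8) * (1 / (((1 / 10) ^ 40 / 3) * (1 + z.1 ^ 2) * (1 / 10) ^ 10)) *
        (1 / (((1 / 10) ^ 40) * (1 + z.2 ^ 2) * (1 / 10) ^ 10)) := by
          have := qq_pos (tau 1 z)
          have := qq_pos (tau (-1) z)
          gcongr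
      _ = C * ((1 + z.1 ^ 2)⁻¹ * (1 + z.2 ^ 2)⁻¹) := by
          rw [hC]
          generalize ((1 : ℝ) / 10) ^ 40 = e
          generalize ((1 : ℝ) / 10) ^ 10 = f
          rw [← one_div, ← one_div]
          simp only [one_div, mul_inv, inv_div]
          ring

end Pool.Agent.R272.Conf
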