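import Pool.Agent.R272.Conf.Fn2

set_option autoImplicit false

open Real MeasureTheory Set

namespace Pool.Agent.R272.Conf

/-- A piecewise `C¹` curve `[0, 1] → ℝ²`: continuous on `[0, 1]`, and `C¹` on each closed piece of
some finite subdivision `0 = t 0 < t 1 < ⋯ < t n = 1`. -/
def PiecewiseC1 (γ : ℝ → ℝ × ℝ) : Prop :=
  ContinuousOn γ (Icc 0 1) ∧ ∃ (n : ℕ) (t : ℕ → ℝ), t 0 = 0 ∧ t n = 1 ∧
    (∀ i < n, t i < t (i + 1)) ∧ ∀ i < n, ContDiffOn ℝ 1 γ (Icc (t i) (t (i + 1)))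

/-- The length of the curve `γ` in the conformal metric `e^{2u} (dx² + dy²)`. -/
noncomputable def glength (u : ℝ × ℝ → ℝ) (γ : ℝ → ℝ × ℝ) : ℝ :=
  ∫ t in (0 : ℝ)..1, exp (u (γ t)) * √((deriv γ t).1 ^ 2 + (deriv γ t).2 ^ 2)

/-- The distance of the conformal metric: the infimum of the lengths of the piecewise `C¹` curves
from `x` to `y`. -/
noncomputable def dg (u : ℝ × ℝ → ℝ) (x y : ℝ × ℝ) : ℝ :=
  sInf {L | ∃ γ, PiecewiseC1 γ ∧ γ 0 = x ∧ γ 1 = y ∧ L = glength u γ}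

theorem exists_piece (t : ℕ → ℝ) (x : ℝ) (hx0 : t 0 < x) (hx : ∀ i, x ≠ t i) (m : ℕ)
    (hm : x < t m) : ∃ i < m, t i < x ∧ x < t (i + 1) := by
  induction m with
  | zero => exact absurd hm (not_lt.mpr hx0.le)
  | succ m ih =>
    by_cases h : x < t m
    · obtain ⟨i, hi, h1, h2⟩ := ih h
      exact ⟨i, by omega, h1, h2⟩
    · exact ⟨m, by omega, lt_of_le_of_ne (not_lt.mp h) (fun h' => hx m h'.symm), hm⟩

theorem PiecewiseC1.hasDerivAt {γ : ℝ → ℝ × ℝ} (h : PiecewiseC1 γ) :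
    ∃ s : Set ℝ, s.Countable ∧ ∀ x ∈ Ioo (0 : ℝ) 1 \ s, HasDerivAt γ (deriv γ x) x := by
  obtain ⟨-, n, t, h0, h1, -, hC⟩ := h
  refine ⟨range t, countable_range t, ?_⟩
  rintro x ⟨hx, hxs⟩
  obtain ⟨i, hi, ha, hb⟩ := exists_piece t x (by rw [h0]; exact hx.1)
    (fun i hi => hxs ⟨i, hi.symm⟩) n (by rw [h1]; exact hx.2)
  have := (hC i hi).contDiffAt (Icc_mem_nhds ha hb)
  exact (this.differentiableAt (by norm_num)).hasDerivAt

theorem PiecewiseC1.intervalIntegrable {γ : ℝ → ℝ × ℝ} (h : PiecewiseC1 γ)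
    {H : (ℝ × ℝ) × (ℝ × ℝ) → ℝ} (hH : Continuous H) :
    IntervalIntegrable (fun t => H (γ t, deriv γ t)) volume 0 1 := by
  obtain ⟨hc, n, t, h0, h1, hlt, hC⟩ := h
  rw [← h0, ← h1]
  apply IntervalIntegrable.trans_iterate
  intro k hk
  have hk' := hlt k hk
  have hd := (hC k hk).continuousOn_derivWithin (uniqueDiffOn_Icc hk') le_rfl
  have hg : ContinuousOn (fun s => H (γ s, derivWithin γ (Icc (t k) (t (k + 1))) s))
      (Icc (t k) (t (k + 1))) :=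
    hH.comp_continuousOn ((hC k hk).continuousOn.prodMk hd)
  refine (hg.intervalIntegrable_of_Icc hk'.le).congr_uIoo ?_
  intro s hs
  rw [uIoo_of_le hk'.le] at hs
  simp only
  rw [derivWithin_of_mem_nhds (Icc_mem_nhds hs.1 hs.2)]

theorem PiecewiseC1.intervalIntegrable' {γ : ℝ → ℝ × ℝ} (h : PiecewiseC1 γ)
    {H : (ℝ × ℝ) × (ℝ × ℝ) → ℝ} (hH : Continuous H) {a b : ℝ} (ha : 0 ≤ a) (hab : a ≤ b)
    (hb : b ≤ 1) :
    IntervalIntegrable (fun t => H (γ t, deriv γ t)) volume a b := by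
  refine (h.intervalIntegrable hH).mono_set ?_
  rw [uIcc_of_le hab, uIcc_of_le zero_le_one]
  exact Icc_subset_Icc ha hb

/-- The barrier function. -/
noncomputable def Psi (c : ℝ) (z : ℝ × ℝ) : ℝ := arctan (1000 * exp (log (tau c z) / 8))

/-- its differential -/
noncomputable def dPsi (c : ℝ) (p : (ℝ × ℝ) × (ℝ × ℝ)) : ℝ :=
  1 / (1 + (1000 * exp (log (tau c p.1) / 8)) ^ 2) *
    (1000 * (exp (log (tau c p.1) / 8) *
      ((2 * (p.1.1 - c) * p.2.1 + 2 * p.1.2 * p.2.2) / tau c p.1 / 8)))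

theorem continuous_tau (c : ℝ) : Continuous (tau c) := (contDiff_tau 0 c).continuous

theorem continuous_dPsi (c : ℝ) : Continuous (dPsi c) := by
  have h0 : Continuous (fun p : (ℝ × ℝ) × (ℝ × ℝ) => tau c p.1) :=
    (continuous_tau c).comp continuous_fst
  have h1 : Continuous (fun p : (ℝ × ℝ) × (ℝ × ℝ) => exp (log (tau c p.1) / 8)) :=
    ((h0.log (fun p => (tau_pos c p.1).ne')).div_const 8).rexp
  unfold dPsi
  refine Continuous.mul ?_ ?_
  · refine Continuous.div continuous_const ?_ (fun p => by positivity)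
    exact continuous_const.add ((continuous_const.mul h1).pow 2)
  · refine continuous_const.mul (h1.mul ?_)
    refine Continuous.div_const ?_ 8
    refine Continuous.div ?_ h0 (fun p => (tau_pos c p.1).ne')
    fun_prop

theorem hasDerivAt_Psi {γ : ℝ → ℝ × ℝ} {v : ℝ × ℝ} {t : ℝ} (c : ℝ) (h : HasDerivAt γ v t) :
    HasDerivAt (fun s => Psi c (γ s)) (dPsi c (γ t, v)) t := by
  have h1 : HasDerivAt (fun s => (γ s).1) v.1 t := h.fst
  have h2 : HasDerivAt (fun s => (γ s).2) v.2 t := h.snd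
  have h3 : HasDerivAt (fun s => tau c (γ s)) (2 * ((γ t).1 - c) * v.1 + 2 * (γ t).2 * v.2) t := by
    have := (((h1.sub_const c).pow 2).add (h2.pow 2)).add_const ((1 / 10 : ℝ) ^ 40)
    refine HasDerivAt.congr_deriv (f := fun s => tau c (γ s)) this ?_
    simp
  have h4 := ((((h3.log (tau_pos c _).ne').div_const 8).exp).const_mul 1000).arctan
  exact h4

theorem exp_uu (z : ℝ × ℝ) : exp (uu z) = (7 / 10 ^ 4) *
    (1 / (exp (log (tau 1 z) / 8) ^ 3 * (exp (log (tau 1 z) / 8) ^ 2 + 1 / 10 ^ 6))) *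
    (1 / (exp (log (tau (-1) z) / 8) ^ 3 * (exp (log (tau (-1) z) / 8) ^ 2 + 1 / 10 ^ 6))) := by
  have key : ∀ t : ℝ, exp (- G t) =
      1 / (exp (log t / 8) ^ 3 * (exp (log t / 8) ^ 2 + 1 / 10 ^ 6)) := by
    intro t
    have h1 : exp (log t / 8) ^ 2 = qq t := by
      rw [qq, ← exp_nat_mul]; congr 1; push_cast; ring
    have h2 : exp (log t / 8) ^ 3 = exp (3 / 8 * log t) := by
      rw [← exp_nat_mul]; congr 1; push_cast; ring
    have hq := qq_pos t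
    rw [h1, h2, G, exp_neg, exp_add, exp_log (by positivity)]
    exact (one_div _).symm
  rw [← key, ← key, uu, sub_eq_add_neg, sub_eq_add_neg, exp_add, exp_add, exp_log (by positivity)]

theorem s_pow8 (c : ℝ) (z : ℝ × ℝ) : exp (log (tau c z) / 8) ^ 8 = tau c z := by
  rw [← exp_nat_mul]
  have : ((8 : ℕ) : ℝ) * (log (tau c z) / 8) = log (tau c z) := by push_cast; ring
  rw [this, exp_log (tau_pos c z)]

/-- the bound for the other factor -/
theorem s_other_le {c d : ℝ} (hc : c = 1 ∧ d = -1 ∨ c = -1 ∧ d = 1) (z : ℝ × ℝ)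
    (hz : tau c z < (1 / 10) ^ 8) : exp (log (tau d z) / 8) ≤ 6 / 5 := by
  have h8 := s_pow8 d z
  have hs := exp_pos (log (tau d z) / 8)
  by_contra hcon
  push Not at hcon
  have h : ((6 : ℝ) / 5) ^ 8 < exp (log (tau d z) / 8) ^ 8 := by gcongr
  rw [h8] at h
  rw [tau] at hz h
  have e0 : (0 : ℝ) ≤ (1 / 10) ^ 40 := by positivity
  have e1 : ((1 : ℝ) / 10) ^ 40 ≤ (1 / 10) ^ 8 :=
    pow_le_pow_of_le_one (by norm_num) (by norm_num) (by norm_num)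
  set e := ((1 : ℝ) / 10) ^ 40
  have hx : (z.1 - c) ^ 2 < (1 / 10) ^ 8 := by nlinarith [sq_nonneg z.2]
  have hx1 : |z.1 - c| < (1 / 10) ^ 4 := by
    apply abs_lt_of_sq_lt_sq _ (by positivity)
    calc _ < _ := hx
      _ = _ := by norm_num
  rw [abs_lt] at hx1
  obtain ⟨k1, k2⟩ := hx1
  rcases hc with ⟨rfl, rfl⟩ | ⟨rfl, rfl⟩
  · norm_num at *
    nlinarith
  · norm_num at *
    nlinarith

theorem dPsi_le {c d : ℝ} (hc : c = 1 ∧ d = -1 ∨ c = -1 ∧ d = 1) (z v : ℝ × ℝ)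
    (hz : tau c z < (1 / 10) ^ 8) :
    |dPsi c (z, v)| ≤ (25 / 28) * (exp (uu z) * √(v.1 ^ 2 + v.2 ^ 2)) := by
  have hs2 := s_other_le hc z hz
  have hsp1 := s_pow8 c z
  have ht := tau_pos c z
  have hu : exp (uu z) = (7 / 10 ^ 4) *
    (1 / (exp (log (tau c z) / 8) ^ 3 * (exp (log (tau c z) / 8) ^ 2 + 1 / 10 ^ 6))) *
    (1 / (exp (log (tau d z) / 8) ^ 3 * (exp (log (tau d z) / 8) ^ 2 + 1 / 10 ^ 6))) := by
    rcases hc with ⟨rfl, rfl⟩ | ⟨rfl, rfl⟩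
    · exact exp_uu z
    · rw [exp_uu z]; ring
  rw [hu, dPsi]
  simp only
  set s := exp (log (tau c z) / 8) with hsdef
  set r := exp (log (tau d z) / 8) with hrdef
  have hs : 0 < s := exp_pos _
  have hr : 0 < r := exp_pos _
  set w := √(v.1 ^ 2 + v.2 ^ 2) with hw
  have hw0 : 0 ≤ w := sqrt_nonneg _
  have hw2 : w ^ 2 = v.1 ^ 2 + v.2 ^ 2 := sq_sqrt (by positivity)
  -- Cauchy–Schwarz
  have hcs : |2 * (z.1 - c) * v.1 + 2 * z.2 * v.2| ≤ 2 * s ^ 4 * w := by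
    apply abs_le_of_sq_le_sq _ (by positivity)
    have e1 : (2 * s ^ 4 * w) ^ 2 = 4 * s ^ 8 * w ^ 2 := by ring
    rw [e1, hsp1, hw2, tau]
    have e0 : (0 : ℝ) ≤ (1 / 10) ^ 40 := by positivity
    set e := ((1 : ℝ) / 10) ^ 40
    have : 4 * ((z.1 - c) ^ 2 + z.2 ^ 2 + e) * (v.1 ^ 2 + v.2 ^ 2) -
      (2 * (z.1 - c) * v.1 + 2 * z.2 * v.2) ^ 2 = 4 * ((z.1 - c) * v.2 - z.2 * v.1) ^ 2 +
        4 * e * (v.1 ^ 2 + v.2 ^ 2) := by ring
    have h1 : 0 ≤ 4 * ((z.1 - c) * v.2 - z.2 * v.1) ^ 2 +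
        4 * e * (v.1 ^ 2 + v.2 ^ 2) := by positivity
    linarith
  have hR : r ^ 3 * (r ^ 2 + 1 / 10 ^ 6) ≤ 5 / 2 := by
    have h1 : r ^ 3 ≤ (6 / 5) ^ 3 := by gcongr
    have h2 : r ^ 2 ≤ (6 / 5) ^ 2 := by gcongr
    have h3 : r ^ 2 + 1 / 10 ^ 6 ≤ (6 / 5) ^ 2 + 1 / 10 ^ 6 := by linarith
    calc _ ≤ (6 / 5 : ℝ) ^ 3 * ((6 / 5) ^ 2 + 1 / 10 ^ 6) := by gcongr
      _ ≤ 5 / 2 := by norm_num
  have hRp : 0 < r ^ 3 * (r ^ 2 + 1 / 10 ^ 6) := by positivity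
  have hRi : 2 / 5 ≤ 1 / (r ^ 3 * (r ^ 2 + 1 / 10 ^ 6)) := by
    rw [le_div_iff₀ hRp]; linarith
  set A := 2 * (z.1 - c) * v.1 + 2 * z.2 * v.2 with hA
  have habs : |1 / (1 + (1000 * s) ^ 2) * (1000 * (s * (A / tau c z / 8)))| =
      1 / (1 + (1000 * s) ^ 2) * (1000 * (s * (|A| / tau c z / 8))) := by
    have hK : 0 ≤ 1 / (1 + (1000 * s) ^ 2) * (1000 * (s / tau c z / 8)) := by positivity
    have e1 : ∀ B : ℝ, 1 / (1 + (1000 * s) ^ 2) * (1000 * (s * (B / tau c z / 8))) =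
        1 / (1 + (1000 * s) ^ 2) * (1000 * (s / tau c z / 8)) * B := by intro B; ring
    rw [e1, e1, abs_mul, abs_of_nonneg hK]
  rw [habs]
  calc 1 / (1 + (1000 * s) ^ 2) * (1000 * (s * (|A| / tau c z / 8)))
      ≤ 1 / (1 + (1000 * s) ^ 2) * (1000 * (s * ((2 * s ^ 4 * w) / tau c z / 8))) := by gcongr
    _ = (25 / 28) * ((7 / 10 ^ 4) * (1 / (s ^ 3 * (s ^ 2 + 1 / 10 ^ 6))) * (2 / 5) * w) := by
      rw [← hsp1]
      field_simp
      ring
    _ ≤ _ := by gcongr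

/-- displacement bound -/
theorem seg_le {c d : ℝ} (hc : c = 1 ∧ d = -1 ∨ c = -1 ∧ d = 1) {γ : ℝ → ℝ × ℝ}
    (h : PiecewiseC1 γ) {a b : ℝ} (ha : 0 ≤ a) (hab : a ≤ b) (hb : b ≤ 1)
    (hz : ∀ t ∈ Ioo a b, tau c (γ t) < (1 / 10) ^ 8) :
    |Psi c (γ b) - Psi c (γ a)| ≤
      (25 / 28) * ∫ t in a..b, exp (uu (γ t)) * √((deriv γ t).1 ^ 2 + (deriv γ t).2 ^ 2) := by
  obtain ⟨s, hs, hds⟩ := h.hasDerivAt
  have hsub : Icc a b ⊆ Icc 0 1 := Icc_subset_Icc ha hb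
  have hint := h.intervalIntegrable' (continuous_dPsi c) ha hab hb
  have hH : Continuous (fun p : (ℝ × ℝ) × (ℝ × ℝ) => exp (uu p.1) * √(p.2.1 ^ 2 + p.2.2 ^ 2)) := by
    have := (contDiff_uu 0).continuous
    fun_prop
  have hint2 := h.intervalIntegrable' hH ha hab hb
  have hPc : Continuous (Psi c) := by
    unfold Psi
    exact continuous_arctan.comp (continuous_const.mul
      ((((continuous_tau c).log (fun p => (tau_pos c p).ne')).div_const 8).rexp))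
  have hftc := integral_eq_of_hasDerivAt_off_countable_of_le (fun t => Psi c (γ t))
    (fun t => dPsi c (γ t, deriv γ t)) hab hs (hPc.comp_continuousOn (h.1.mono hsub))
    (fun x hx => hasDerivAt_Psi c (hds x ⟨⟨lt_of_le_of_lt ha hx.1.1, lt_of_lt_of_le hx.1.2 hb⟩, hx.2⟩))
    hint
  rw [← hftc, ← intervalIntegral.integral_const_mul]
  calc |∫ t in a..b, dPsi c (γ t, deriv γ t)| ≤ ∫ t in a..b, |dPsi c (γ t, deriv γ t)| :=
        intervalIntegral.abs_integral_le_integral_abs hab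
    _ ≤ _ := by
      apply intervalIntegral.integral_mono_on_of_le_Ioo hab hint.abs (hint2.const_mul _)
      intro t ht
      exact dPsi_le hc (γ t) (deriv γ t) (hz t ht)

theorem sqrt_cont : Continuous (fun p : (ℝ × ℝ) × (ℝ × ℝ) =>
    exp (uu p.1) * √(p.2.1 ^ 2 + p.2.2 ^ 2)) := by
  have := (contDiff_uu 0).continuous
  fun_prop

theorem Psi_start (c : ℝ) (z : ℝ × ℝ) (hz : tau c z = (1 / 10) ^ 40) :
    Psi c z = arctan (1 / 100) := by
  have hs := s_pow8 c z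
  have h0 := exp_pos (log (tau c z) / 8)
  have : exp (log (tau c z) / 8) = (1 / 10) ^ 5 := by
    rw [hz] at hs
    refine (pow_left_inj₀ h0.le (by positivity) (n := 8) (by norm_num)).mp ?_
    rw [hz, hs]
    norm_num
  rw [Psi, this]
  norm_num

theorem Psi_end (c : ℝ) (z : ℝ × ℝ) (hz : (1 / 10) ^ 8 ≤ tau c z) :
    arctan 100 ≤ Psi c z := by
  have hs := s_pow8 c z
  have h0 := exp_pos (log (tau c z) / 8)
  have : 1 / 10 ≤ exp (log (tau c z) / 8) := by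
    refine (pow_le_pow_iff_left₀ (by positivity) h0.le (n := 8) (by norm_num)).mp ?_
    rw [hs]; exact hz
  rw [Psi]
  apply arctan_strictMono.monotone
  linarith

theorem gap : π / 2 - 2 / 100 ≤ arctan 100 - arctan (1 / 100) := by
  have h1 : arctan (100 : ℝ)⁻¹ = π / 2 - arctan 100 := arctan_inv_of_pos (by norm_num)
  have h2 : arctan (1 / 100) ≤ 1 / 100 := by
    have h0 : 0 ≤ arctan (1 / 100) := arctan_nonneg.mpr (by norm_num)
    have := le_tan h0 (arctan_lt_pi_div_two _)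
    rwa [tan_arctan] at this
  have h3 : (100 : ℝ)⁻¹ = 1 / 100 := by norm_num
  rw [h3] at h1
  linarith

theorem length_ge {γ : ℝ → ℝ × ℝ} (h : PiecewiseC1 γ) (h0 : γ 0 = (1, 0)) (h1 : γ 1 = (-1, 0)) :
    (28 / 25) * (2 * (arctan 100 - arctan (1 / 100))) ≤ glength uu γ := by
  -- the two exit times
  have hc1 : ContinuousOn (fun t => tau 1 (γ t)) (Icc 0 1) := (continuous_tau 1).comp_continuousOn h.1
  have hc2 : ContinuousOn (fun t => tau (-1) (γ t)) (Icc 0 1) :=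
    (continuous_tau (-1)).comp_continuousOn h.1
  set S1 : Set ℝ := Icc 0 1 ∩ (fun t => tau 1 (γ t)) ⁻¹' (Ici ((1 / 10) ^ 8)) with hS1
  set S2 : Set ℝ := Icc 0 1 ∩ (fun t => tau (-1) (γ t)) ⁻¹' (Ici ((1 / 10) ^ 8)) with hS2
  have hcl1 : IsClosed S1 := hc1.preimage_isClosed_of_isClosed isClosed_Icc isClosed_Ici
  have hcl2 : IsClosed S2 := hc2.preimage_isClosed_of_isClosed isClosed_Icc isClosed_Ici
  have hne1 : S1.Nonempty := by
    refine ⟨1, right_mem_Icc.mpr zero_le_one, ?_⟩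
    simp only [mem_preimage, mem_Ici, h1, tau]
    norm_num
  have hne2 : S2.Nonempty := by
    refine ⟨0, left_mem_Icc.mpr zero_le_one, ?_⟩
    simp only [mem_preimage, mem_Ici, h0, tau]
    norm_num
  have hb1 : BddBelow S1 := ⟨0, fun t ht => ht.1.1⟩
  have hb2 : BddAbove S2 := ⟨1, fun t ht => ht.1.2⟩
  have m1 := hcl1.csInf_mem hne1 hb1
  have m2 := hcl2.csSup_mem hne2 hb2
  set t1 := sInf S1 with ht1
  set t2 := sSup S2 with ht2
  have lt1 : ∀ t, 0 ≤ t → t < t1 → tau 1 (γ t) < (1 / 10) ^ 8 := by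
    intro t h0t htt
    by_contra hcon
    push Not at hcon
    have : t1 ≤ t := csInf_le hb1 ⟨⟨h0t, htt.le.trans m1.1.2⟩, hcon⟩
    linarith
  have lt2 : ∀ t, t ≤ 1 → t2 < t → tau (-1) (γ t) < (1 / 10) ^ 8 := by
    intro t h0t htt
    by_contra hcon
    push Not at hcon
    have : t ≤ t2 := le_csSup hb2 ⟨⟨m2.1.1.trans htt.le, h0t⟩, hcon⟩
    linarith
  have hle : t1 ≤ t2 := by
    by_contra hcon
    push Not at hcon
    have a1 := lt1 ((t1 + t2) / 2) (by have := m1.1.1; have := m2.1.1; linarith) (by linarith)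
    have a2 := lt2 ((t1 + t2) / 2) (by have := m1.1.2; have := m2.1.2; linarith) (by linarith)
    simp only [tau] at a1 a2
    have e0 : (0 : ℝ) ≤ (1 / 10) ^ 40 := by positivity
    nlinarith [sq_nonneg (γ ((t1 + t2) / 2)).1, sq_nonneg (γ ((t1 + t2) / 2)).2]
  have s1 := seg_le (Or.inl ⟨rfl, rfl⟩ : ((1 : ℝ) = 1 ∧ (-1 : ℝ) = -1 ∨ (1 : ℝ) = -1 ∧ (-1 : ℝ) = 1))
    h le_rfl m1.1.1 m1.1.2 (fun t ht => lt1 t ht.1.le ht.2)
  have s2 := seg_le (Or.inr ⟨rfl, rfl⟩ : ((-1 : ℝ) = 1 ∧ (1 : ℝ) = -1 ∨ (-1 : ℝ) = -1 ∧ (1 : ℝ) = 1))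
    h m2.1.1 m2.1.2 le_rfl (fun t ht => lt2 t ht.2.le ht.1)
  have p1 := Psi_end 1 (γ t1) m1.2
  have p2 := Psi_end (-1) (γ t2) m2.2
  have p3 := Psi_start 1 (γ 0) (by rw [h0, tau]; norm_num)
  have p4 := Psi_start (-1) (γ 1) (by rw [h1, tau]; norm_num)
  rw [p3] at s1
  rw [p4] at s2
  have s1' := (le_abs_self _).trans s1
  have s2' := (neg_le_abs _).trans s2
  have i1 := h.intervalIntegrable' sqrt_cont le_rfl m1.1.1 m1.1.2
  have i2 := h.intervalIntegrable' sqrt_cont m1.1.1 hle m2.1.2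
  have i3 := h.intervalIntegrable' sqrt_cont m2.1.1 m2.1.2 le_rfl
  have hmid : 0 ≤ ∫ t in t1..t2, exp (uu (γ t)) * √((deriv γ t).1 ^ 2 + (deriv γ t).2 ^ 2) :=
    intervalIntegral.integral_nonneg hle (fun t _ => by positivity)
  have hsum : glength uu γ =
      (∫ t in (0 : ℝ)..t1, exp (uu (γ t)) * √((deriv γ t).1 ^ 2 + (deriv γ t).2 ^ 2)) +
      (∫ t in t1..t2, exp (uu (γ t)) * √((deriv γ t).1 ^ 2 + (deriv γ t).2 ^ 2)) +
      (∫ t in t2..1, exp (uu (γ t)) * √((deriv γ t).1 ^ 2 + (deriv γ t).2 ^ 2)) := by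
    rw [glength, intervalIntegral.integral_add_adjacent_intervals i1 i2,
      intervalIntegral.integral_add_adjacent_intervals (i1.trans i2) i3]
  rw [hsum]
  linarith

theorem dg_gt : π < dg uu (1, 0) (-1, 0) := by
  have hge : (28 / 25) * (2 * (arctan 100 - arctan (1 / 100))) ≤ dg uu (1, 0) (-1, 0) := by
    apply le_csInf
    · refine ⟨_, fun t => (1 - 2 * t, 0), ?_, by simp, by norm_num, rfl⟩
      have hC : ContDiff ℝ 1 (fun t : ℝ => ((1 - 2 * t, 0) : ℝ × ℝ)) := by fun_prop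
      refine ⟨hC.continuous.continuousOn, 1, fun i => i, by simp, by simp, ?_, ?_⟩
      · intro i _; push_cast; linarith
      · intro i _; exact hC.contDiffOn
    · rintro L ⟨γ, hγ, h0, h1, rfl⟩
      exact length_ge hγ h0 h1
  have hg := gap
  have hpi := pi_gt_three
  linarith

end Pool.Agent.R272.Conf
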